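import Mathlib

/-!
# The conjectured Nordhaus–Gaddum bounds for total domination with `δ* = 4` fail

The graph is the complement of the disjoint union of copies of the bipartite complement of the
Heawood graph.
-/

set_option autoImplicit false

namespace Pool.Agent.Results.MP_4101c8_co.BothFail

/-- `S` is a total dominating set: every vertex is adjacent to a vertex of `S`. -/
def IsTotalDominating {V : Type} (G : SimpleGraph V) (S : Finset V) : Prop :=
  ∀ v, ∃ u ∈ S, G.Adj v u

/-- the total domination number -/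
noncomputable def totalDomination {V : Type} (G : SimpleGraph V) : ℕ :=
  sInf {k | ∃ S : Finset V, IsTotalDominating G S ∧ S.card = k}

/-- the differences -/
abbrev D : Finset (ZMod 7) := {2, 4, 5, 6}

/-- vertices -/
abbrev V (k : ℕ) := Fin k × Bool × ZMod 7

/-- `k` disjoint copies of the bipartite complement of the Heawood graph -/
def H (k : ℕ) : SimpleGraph (V k) where
  Adj a b := a.1 = b.1 ∧ a.2.1 ≠ b.2.1 ∧ a.2.2 + b.2.2 ∈ D
  symm := ⟨fun a b h => ⟨h.1.symm, h.2.1.symm, by rw [add_comm]; exact h.2.2⟩⟩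
  loopless := ⟨fun a h => h.2.1 rfl⟩

instance (k : ℕ) : DecidableRel (H k).Adj := fun a b =>
  inferInstanceAs (Decidable (a.1 = b.1 ∧ a.2.1 ≠ b.2.1 ∧ a.2.2 + b.2.2 ∈ D))

theorem degree_H (k : ℕ) (a : V k) : (H k).degree a = 4 := by
  obtain ⟨c, s, i⟩ := a
  have : (H k).neighborFinset (c, s, i) = D.image (fun d => (c, !s, d - i)) := by
    ext ⟨c', s', j⟩
    rw [SimpleGraph.mem_neighborFinset, Finset.mem_image]
    constructor
    · rintro ⟨h1, h2, h3⟩
      refine ⟨i + j, h3, ?_⟩
      have h1' : c = c' := h1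
      have h2' : s ≠ s' := h2
      have h4 : (!s) = s' := by cases s <;> cases s' <;> simp_all
      rw [h1', h4]
      simp
    · rintro ⟨d, hd, h⟩
      rw [Prod.ext_iff, Prod.ext_iff] at h
      obtain ⟨h1, h2, h3⟩ := h
      have h1' : c = c' := h1
      have h2' : (!s) = s' := h2
      have h3' : d - i = j := h3
      refine ⟨h1', ?_, ?_⟩
      · show s ≠ s'
        rw [← h2']; cases s <;> simp
      · show i + j ∈ D
        rw [← h3']
        have : i + (d - i) = d := by ring
        rw [this]; exact hd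
  rw [← SimpleGraph.card_neighborFinset_eq_degree, this, Finset.card_image_of_injective]
  · decide
  · intro d e h
    rw [Prod.ext_iff, Prod.ext_iff] at h
    exact sub_left_injective h.2.2

/-- two residues always have a common non-neighbour -/
theorem pair (a b : ZMod 7) : ∃ j, j + a ∉ D ∧ j + b ∉ D := by
  revert a b; decide

theorem small {A : Finset (ZMod 7)} (h : A.card ≤ 2) : ∃ j, ∀ i ∈ A, j + i ∉ D := by
  rcases Nat.lt_or_ge A.card 1 with h0 | h0
  · have : A = ∅ := by rw [← Finset.card_eq_zero]; omega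
    subst this
    exact ⟨0, by simp⟩
  rcases Nat.lt_or_ge A.card 2 with h1 | h1
  · obtain ⟨a, rfl⟩ := Finset.card_eq_one.mp (by omega : A.card = 1)
    obtain ⟨j, hj, -⟩ := pair a a
    exact ⟨j, by simpa using hj⟩
  · obtain ⟨a, b, -, rfl⟩ := Finset.card_eq_two.mp (by omega : A.card = 2)
    obtain ⟨j, hj, hj'⟩ := pair a b
    refine ⟨j, ?_⟩
    intro i hi
    rw [Finset.mem_insert, Finset.mem_singleton] at hi
    rcases hi with rfl | rfl
    · exact hj
    · exact hj'

theorem card_ge_H {k : ℕ} {S : Finset (V k)} (hS : IsTotalDominating (H k) S) : 6 * k ≤ S.card := by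
  have h1 : ∀ p : Fin k × Bool, 3 ≤ (S.filter (fun a => (a.1, a.2.1) = p)).card := by
    rintro ⟨c, s⟩
    by_contra hlt
    push Not at hlt
    have h2 : ((S.filter (fun a => (a.1, a.2.1) = (c, s))).image (fun a => a.2.2)).card ≤ 2 :=
      Finset.card_image_le.trans (by omega)
    obtain ⟨j, hj⟩ := small h2
    obtain ⟨⟨c', s', i⟩, hu, h3, h4, h5⟩ := hS (c, !s, j)
    have h3' : c = c' := h3
    have h4' : (!s) ≠ s' := h4
    have h5' : j + i ∈ D := h5
    have h6 : s = s' := by cases s <;> cases s' <;> simp_all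
    subst h3' h6
    exact hj i (Finset.mem_image.mpr ⟨(c, s, i), Finset.mem_filter.mpr ⟨hu, rfl⟩, rfl⟩) h5'
  have h2 := Finset.card_eq_sum_card_fiberwise (s := S) (t := (Finset.univ : Finset (Fin k × Bool)))
    (f := fun a => (a.1, a.2.1)) (fun _ _ => Finset.mem_coe.mpr (Finset.mem_univ _))
  rw [h2]
  calc 6 * k = ∑ _p : Fin k × Bool, 3 := by
        rw [Finset.sum_const, Finset.card_univ, Fintype.card_prod, Fintype.card_fin,
          Fintype.card_bool, smul_eq_mul]
        ring
    _ ≤ _ := Finset.sum_le_sum fun p _ => h1 p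

theorem card_ge_two {W : Type} [Nonempty W] {G : SimpleGraph W} {S : Finset W}
    (hS : IsTotalDominating G S) : 2 ≤ S.card := by
  obtain ⟨w⟩ := ‹Nonempty W›
  obtain ⟨u, hu, -⟩ := hS w
  obtain ⟨v, hv, h⟩ := hS u
  by_contra hlt
  push Not at hlt
  have : u = v := Finset.card_le_one.mp (by omega) u hu v hv
  subst this
  exact G.loopless.irrefl u h

theorem totalDomination_ge {W : Type} {G : SimpleGraph W} {m : ℕ} {S₀ : Finset W}
    (h0 : IsTotalDominating G S₀)
    (h : ∀ S : Finset W, IsTotalDominating G S → m ≤ S.card) : m ≤ totalDomination G := by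
  unfold totalDomination
  have hne : {k | ∃ S : Finset W, IsTotalDominating G S ∧ S.card = k}.Nonempty := ⟨_, S₀, h0, rfl⟩
  obtain ⟨S, hS, hc⟩ := Nat.sInf_mem hne
  rw [← hc]
  exact h S hS

theorem adj_compl {k : ℕ} {a b : V k} (h : a.1 ≠ b.1) : (H k)ᶜ.Adj a b := by
  rw [SimpleGraph.compl_adj]
  exact ⟨fun e => h (e ▸ rfl), fun e => h e.1⟩

theorem exists_other {k : ℕ} (hk : 2 ≤ k) (c : Fin k) : ∃ c', c ≠ c' := by
  have : Nontrivial (Fin k) := Fin.nontrivial_iff_two_le.mpr hk
  obtain ⟨c', h⟩ := exists_ne c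
  exact ⟨c', h.symm⟩

theorem connected {k : ℕ} (hk : 2 ≤ k) : (H k)ᶜ.Connected := by
  have : Nonempty (V k) := ⟨(⟨0, by omega⟩, false, 0)⟩
  refine SimpleGraph.Connected.mk ?_
  intro a b
  by_cases h : a.1 = b.1
  · obtain ⟨c, hc⟩ := exists_other hk a.1
    have h1 : (H k)ᶜ.Adj a (c, false, 0) := adj_compl hc
    have h2 : (H k)ᶜ.Adj (c, false, 0) b := adj_compl (by
      show c ≠ b.1
      rw [← h]; exact hc.symm)
    exact h1.reachable.trans h2.reachable
  · exact (adj_compl h).reachable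

theorem minDegree_eq {k : ℕ} (hk : 2 ≤ k) {G : SimpleGraph (V k)} [DecidableRel G.Adj]
    [DecidableRel Gᶜ.Adj] (hG : G = (H k)ᶜ) : min G.minDegree Gᶜ.minDegree = 4 := by
  have hne : Nonempty (V k) := ⟨(⟨0, by omega⟩, false, 0)⟩
  have hcard : Fintype.card (V k) = 14 * k := by
    rw [Fintype.card_prod, Fintype.card_prod, Fintype.card_fin, Fintype.card_bool, ZMod.card]
    ring
  have hcc : Gᶜ = H k := by rw [hG]; exact compl_compl _
  have m2 : ∀ v, Gᶜ.degree v = 4 := by
    intro v
    have := degree_H k v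
    rw [← SimpleGraph.card_neighborFinset_eq_degree] at this ⊢
    rw [← this]
    congr 1
    ext u
    rw [SimpleGraph.mem_neighborFinset, SimpleGraph.mem_neighborFinset, hcc]
  have m1 : ∀ v, 14 * k - 5 ≤ G.degree v := by
    intro v
    have h1 := SimpleGraph.degree_compl (G := G) v
    have h2 := m2 v
    have h3 : Fintype.card (V k) - 1 - G.degree v = 4 := by
      rw [← h2, ← h1]
    rw [hcard] at h3
    omega
  have m3 : 14 * k - 5 ≤ G.minDegree := SimpleGraph.le_minDegree_of_forall_le_degree _ _ m1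
  have m4 : Gᶜ.minDegree = 4 := by
    apply le_antisymm
    · obtain ⟨v⟩ := hne
      exact (Gᶜ.minDegree_le_degree v).trans (m2 v).le
    · exact SimpleGraph.le_minDegree_of_forall_le_degree _ _ fun v => (m2 v).ge
  rw [m4]
  apply min_eq_right
  omega

/-- For every `n₀` there is a connected graph `G` of order `n ≥ n₀` with
`min (δ(G), δ(Gᶜ)) = 4`, `γ_t(G) + γ_t(Gᶜ) > 2n/5 + 2` and `γ_t(G) γ_t(Gᶜ) > 4n/5`. -/
theorem result : ∀ n₀ : ℕ, ∃ (V : Type) (_ : Fintype V) (G : SimpleGraph V)
    (_ : DecidableRel G.Adj) (_ : DecidableRel Gᶜ.Adj),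
    n₀ ≤ Fintype.card V ∧ G.Connected ∧ min G.minDegree Gᶜ.minDegree = 4 ∧
    (totalDomination G + totalDomination Gᶜ : ℚ) > 2 * Fintype.card V / 5 + 2 ∧
    (totalDomination G * totalDomination Gᶜ : ℚ) > 4 * Fintype.card V / 5 := by
  intro n₀
  obtain ⟨k, hk⟩ : ∃ k, k = n₀ + 2 := ⟨_, rfl⟩
  have hk2 : 2 ≤ k := by omega
  have hne : Nonempty (V k) := ⟨(⟨0, by omega⟩, false, 0)⟩
  have hcard : Fintype.card (V k) = 14 * k := by
    rw [Fintype.card_prod, Fintype.card_prod, Fintype.card_fin, Fintype.card_bool, ZMod.card]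
    ring
  have hcc : (H k)ᶜᶜ = H k := compl_compl _
  have e1 : 2 ≤ totalDomination (H k)ᶜ := by
    refine totalDomination_ge (S₀ := Finset.univ) ?_ (fun S hS => card_ge_two hS)
    intro v
    obtain ⟨c, hc⟩ := exists_other hk2 v.1
    exact ⟨(c, false, 0), Finset.mem_univ _, adj_compl hc⟩
  have e2 : 6 * k ≤ totalDomination (H k)ᶜᶜ := by
    rw [hcc]
    refine totalDomination_ge (S₀ := Finset.univ) ?_ (fun S hS => card_ge_H hS)
    intro v
    have h := degree_H k v
    have h' : 0 < (H k).degree v := by omega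
    obtain ⟨u, hu⟩ := (SimpleGraph.degree_pos_iff_exists_adj _ _).mp h'
    exact ⟨u, Finset.mem_univ _, hu⟩
  refine ⟨V k, inferInstance, (H k)ᶜ, inferInstance, inferInstance, by rw [hcard]; omega,
    connected hk2, ?_, ?_, ?_⟩
  · exact minDegree_eq hk2 rfl
  · rw [hcard]
    have e1' : (2 : ℚ) ≤ totalDomination (H k)ᶜ := by exact_mod_cast e1
    have e2' : (6 : ℚ) * k ≤ totalDomination (H k)ᶜᶜ := by exact_mod_cast e2
    have hk' : (2 : ℚ) ≤ k := by exact_mod_cast hk2
    push_cast
    linarith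
  · rw [hcard]
    have e1' : (2 : ℚ) ≤ totalDomination (H k)ᶜ := by exact_mod_cast e1
    have e2' : (6 : ℚ) * k ≤ totalDomination (H k)ᶜᶜ := by exact_mod_cast e2
    have hk' : (2 : ℚ) ≤ k := by exact_mod_cast hk2
    push_cast
    nlinarith

end Pool.Agent.Results.MP_4101c8_co.BothFail
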